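import Pool.Agent.Helper102_sidon.Mgf
import Pool.Agent.H337R3.Sid2

set_option autoImplicit false
set_option linter.unusedSectionVars false

open MeasureTheory

namespace Pool.Agent.Helper102_sidon

universe u v

variable {Γ : Type u} [AddCommGroup Γ] [DecidableEq Γ] {X : Type v} [MeasurableSpace X] {μ : Measure X}
  [IsProbabilityMeasure μ] {χ : Γ → X → ℂ}

/-- The annihilator of a subgroup. -/
def ann (χ : Γ → X → ℂ) (H : AddSubgroup Γ) : Set X := {x | ∀ h : H, χ h x = 1}

theorem ann_meas (h : CharSys Γ μ χ) (H : AddSubgroup Γ) [Finite H] : MeasurableSet (ann χ H) := by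
  have : ann χ H = ⋂ k : H, (χ k) ⁻¹' {1} := by
    ext x
    simp [ann]
  rw [this]
  exact MeasurableSet.iInter fun k => h.meas _ (measurableSet_singleton 1)

theorem ann_measure (h : CharSys Γ μ χ) (H : AddSubgroup Γ) [Finite H] :
    (μ.real (ann χ H)) * (Nat.card H : ℝ) = 1 := by
  classical
  have : Fintype H := Fintype.ofFinite H
  have hS : ∀ x, ∑ k : H, χ k x = (ann χ H).indicator (fun _ => ((Nat.card H : ℝ) : ℂ)) x := by
    intro x
    by_cases hx : x ∈ ann χ H
    · rw [Set.indicator_of_mem hx]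
      have h1 : ∀ k : H, χ k x = 1 := hx
      simp only [h1, Finset.sum_const, Finset.card_univ, nsmul_eq_mul, mul_one,
        Nat.card_eq_fintype_card]
      push_cast
      rfl
    · rw [Set.indicator_of_notMem hx]
      have h1 : ∃ k : H, χ k x ≠ 1 := by
        by_contra hcon
        push Not at hcon
        exact hx hcon
      obtain ⟨k₀, hk₀⟩ := h1
      have h2 : ∑ k : H, χ k x = χ k₀ x * ∑ k : H, χ k x := by
        rw [Finset.mul_sum]
        have h3 : ∀ k : H, χ k₀ x * χ k x = χ ((k₀ + k : H) : Γ) x := by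
          intro k
          rw [AddSubgroup.coe_add, h.add]
        simp_rw [h3]
        exact (Equiv.sum_comp (Equiv.addLeft k₀) (fun k : H => χ k x)).symm
      have h4 : (χ k₀ x - 1) * ∑ k : H, χ k x = 0 := by
        rw [sub_mul, one_mul, ← h2, sub_self]
      rcases mul_eq_zero.mp h4 with h5 | h5
      · exact absurd (sub_eq_zero.mp h5) hk₀
      · exact h5
  have h1 : ∫ x, ∑ k : H, χ k x ∂μ = 1 := by
    rw [integral_finset_sum]
    · simp_rw [h.integral]
      have : ∀ k : H, (if (k : Γ) = 0 then (1 : ℂ) else 0) = if k = 0 then 1 else 0 := by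
        intro k
        simp only [ZeroMemClass.coe_eq_zero]
      simp_rw [this]
      simp
    · intro k _
      exact integrable_of_bound _ (h.meas k) 1 (fun x => (h.norm k x).le)
  simp_rw [hS] at h1
  rw [integral_indicator (ann_meas h H), setIntegral_const] at h1
  have h2 : ((μ.real (ann χ H) * (Nat.card H : ℝ) : ℝ) : ℂ) = 1 := by
    rw [← h1, Complex.real_smul]
    push_cast
    rfl
  exact_mod_cast h2

/-- A subgaussian set satisfies the size condition. -/
theorem small (h : CharSys Γ μ χ) (Λ : Set Γ) (h0 : (0 : Γ) ∉ Λ)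
    (hfin : ∀ D : Finset Γ, (D : Set Γ) ⊆ Λ → Finite (AddSubgroup.closure (D : Set Γ)))
    (C : ℝ) (hC : ∀ A : Finset Γ, (A : Set Γ) ⊆ Λ → A.Nonempty → ∃ c : ℝ, 0 < c ∧
      c ≤ C * Real.sqrt A.card ∧
      ∫⁻ x, ENNReal.ofReal (Real.exp (‖∑ n ∈ A, χ n x‖ ^ 2 / c ^ 2)) ∂μ ≤
        ENNReal.ofReal (Real.exp 1)) :
    ∃ K : ℕ, Pool.Agent.H337R3.Sid.Small K Λ := by
  refine ⟨⌈3 * C ^ 2⌉₊, ?_⟩
  intro A hA
  rcases A.eq_empty_or_nonempty with rfl | hAe
  · simp only [Finset.card_empty, pow_zero]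
    apply Nat.one_le_pow
    have := hfin ∅ (by simp)
    exact Nat.card_pos
  set H := AddSubgroup.closure (A : Set Γ) with hH
  have hHf : Finite H := hfin A hA
  obtain ⟨c, hc0, hcC, hc⟩ := hC A hA hAe
  have hcard : (0 : ℝ) < A.card := by exact_mod_cast Finset.card_pos.mpr hAe
  have hHcard : 2 ≤ Nat.card H := by
    obtain ⟨x, hx⟩ := hAe
    have hx0 : x ≠ 0 := by
      rintro rfl
      exact h0 (hA hx)
    have hnt : Nontrivial H := by
      refine ⟨⟨⟨x, AddSubgroup.subset_closure hx⟩, 0, ?_⟩⟩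
      intro h1
      exact hx0 (congrArg Subtype.val h1)
    exact Finite.one_lt_card
  have hHr : (2 : ℝ) ≤ Nat.card H := by exact_mod_cast hHcard
  have hHpos : (0 : ℝ) < Nat.card H := by linarith
  -- evaluation on the annihilator
  have h1 : ENNReal.ofReal (Real.exp ((A.card : ℝ) ^ 2 / c ^ 2)) * μ (ann χ H) ≤
      ENNReal.ofReal (Real.exp 1) := by
    refine le_trans ?_ hc
    rw [← setLIntegral_const]
    refine le_trans (setLIntegral_mono' (g := fun x => ENNReal.ofReal
      (Real.exp (‖∑ n ∈ A, χ n x‖ ^ 2 / c ^ 2))) (ann_meas h H) ?_) (setLIntegral_le_lintegral _ _)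
    intro x hx
    have h2 : ∑ n ∈ A, χ n x = (A.card : ℂ) := by
      rw [Finset.sum_congr rfl (fun n hn => hx ⟨n, AddSubgroup.subset_closure hn⟩)]
      simp
    rw [h2, Complex.norm_natCast]
  have h2 : Real.exp ((A.card : ℝ) ^ 2 / c ^ 2) * μ.real (ann χ H) ≤ Real.exp 1 := by
    have h3 : μ (ann χ H) = ENNReal.ofReal (μ.real (ann χ H)) := by
      rw [Measure.real, ENNReal.ofReal_toReal (measure_ne_top _ _)]
    rw [h3, ← ENNReal.ofReal_mul (Real.exp_pos _).le] at h1
    exact (ENNReal.ofReal_le_ofReal_iff (Real.exp_pos _).le).mp h1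
  have h3 : Real.exp ((A.card : ℝ) ^ 2 / c ^ 2) ≤ Real.exp 1 * Nat.card H := by
    have h4 := ann_measure h H
    have h5 := mul_le_mul_of_nonneg_right h2 hHpos.le
    rw [mul_assoc, h4, mul_one] at h5
    exact h5
  have h4 : (A.card : ℝ) ^ 2 / c ^ 2 ≤ 1 + Real.log (Nat.card H) := by
    have h5 := Real.log_le_log (Real.exp_pos _) h3
    rw [Real.log_exp, Real.log_mul (Real.exp_pos _).ne' hHpos.ne', Real.log_exp] at h5
    exact h5
  have hlog2 : (1 / 2 : ℝ) < Real.log 2 := by
    have := Real.log_two_gt_d9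
    linarith
  have hlog2' : Real.log 2 < 1 := by
    have := Real.log_two_lt_d9
    linarith
  have hlogH : Real.log 2 ≤ Real.log (Nat.card H) := Real.log_le_log (by norm_num) hHr
  have h5 : (A.card : ℝ) ^ 2 ≤ c ^ 2 * (3 * Real.log (Nat.card H)) := by
    rw [div_le_iff₀ (by positivity)] at h4
    nlinarith [sq_nonneg c]
  have h6 : c ^ 2 ≤ C ^ 2 * A.card := by
    calc c ^ 2 ≤ (C * Real.sqrt A.card) ^ 2 := pow_le_pow_left₀ hc0.le hcC 2
      _ = C ^ 2 * A.card := by rw [mul_pow, Real.sq_sqrt hcard.le]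
  have h7 : (A.card : ℝ) ≤ 3 * C ^ 2 * Real.log (Nat.card H) := by
    have h8 : (A.card : ℝ) ^ 2 ≤ C ^ 2 * A.card * (3 * Real.log (Nat.card H)) :=
      h5.trans (mul_le_mul_of_nonneg_right h6 (by linarith))
    have h9 : (A.card : ℝ) * A.card ≤ (3 * C ^ 2 * Real.log (Nat.card H)) * A.card := by
      nlinarith
    exact le_of_mul_le_mul_right h9 hcard
  have h8 : (A.card : ℝ) * Real.log 2 ≤ ⌈3 * C ^ 2⌉₊ * Real.log (Nat.card H) := by
    calc (A.card : ℝ) * Real.log 2 ≤ A.card * 1 := mul_le_mul_of_nonneg_left hlog2'.le hcard.le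
      _ = A.card := mul_one _
      _ ≤ 3 * C ^ 2 * Real.log (Nat.card H) := h7
      _ ≤ ⌈3 * C ^ 2⌉₊ * Real.log (Nat.card H) :=
        mul_le_mul_of_nonneg_right (Nat.le_ceil _) (by linarith)
  have h9 : ((2 : ℝ) ^ A.card) ≤ (Nat.card H : ℝ) ^ ⌈3 * C ^ 2⌉₊ := by
    rw [← Real.log_le_log_iff (by positivity) (by positivity), Real.log_pow, Real.log_pow]
    exact h8
  exact_mod_cast h9

/-- A finite union of quasi-independent sets is subgaussian. -/
theorem sg_of_union (h : CharSys Γ μ χ) (k : ℕ) (Q : Fin k → Set Γ)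
    (hQ : ∀ i, Pool.Agent.H337R3.Sid.QI (Q i)) (A : Finset Γ) (hA : (A : Set Γ) ⊆ ⋃ i, Q i)
    (a : Γ → ℂ) (hs : 0 < ∑ n ∈ A, ‖a n‖ ^ 2) :
    ∫⁻ x, ENNReal.ofReal (Real.exp (‖∑ n ∈ A, a n * χ n x‖ ^ 2 /
      (2 * k * Real.sqrt (2 * Real.exp 1 * ∑ n ∈ A, ‖a n‖ ^ 2)) ^ 2)) ∂μ ≤
        ENNReal.ofReal (Real.exp 1) := by
  classical
  set s := ∑ n ∈ A, ‖a n‖ ^ 2 with hsdef
  have he : (0 : ℝ) < Real.exp 1 := Real.exp_pos 1
  have hAne : A.Nonempty := by
    by_contra hcon
    rw [Finset.not_nonempty_iff_eq_empty] at hcon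
    rw [hcon] at hsdef
    simp at hsdef
    linarith
  have hk : 0 < k := by
    obtain ⟨x, hx⟩ := hAne
    obtain ⟨i, _⟩ := Set.mem_iUnion.mp (hA hx)
    exact lt_of_le_of_lt (Nat.zero_le _) i.2
  have hkr : (0 : ℝ) < k := by exact_mod_cast hk
  -- the colour
  have hcol : ∀ x : Γ, ∃ i : Fin k, x ∈ A → x ∈ Q i := by
    intro x
    by_cases hx : x ∈ A
    · obtain ⟨i, hi⟩ := Set.mem_iUnion.mp (hA hx)
      exact ⟨i, fun _ => hi⟩
    · exact ⟨⟨0, hk⟩, fun h => absurd h hx⟩
  choose col hcol using hcol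
  set P : Fin k → Finset Γ := fun i => A.filter (fun x => col x = i) with hP
  have hPQ : ∀ i, FQI (P i) := by
    intro i ξ hξ hrel x hx
    refine hQ i (P i) ?_ ξ (fun x _ => hξ x) hrel x hx
    intro y hy
    have hy' := Finset.mem_filter.mp (Finset.mem_coe.mp hy)
    rw [← hy'.2]
    exact hcol y hy'.1
  -- the real pieces
  set Y : Fin k → Bool → X → ℝ := fun i b x =>
    ∑ n ∈ P i, ((if b then a n else -Complex.I * a n) * χ n x).re with hY
  have hYm : ∀ i b, Measurable (Y i b) := by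
    intro i b
    apply Finset.measurable_sum
    intro n _
    exact Complex.measurable_re.comp ((h.meas n).const_mul _)
  have hnb : ∀ (b : Bool) n, ‖(if b then a n else -Complex.I * a n)‖ = ‖a n‖ := by
    intro b n
    cases b <;> simp
  have hYb : ∀ i b x, |Y i b x| ≤ ∑ n ∈ P i, ‖a n‖ := by
    intro i b x
    refine (Finset.abs_sum_le_sum_abs _ _).trans (Finset.sum_le_sum fun n _ => ?_)
    refine (Complex.abs_re_le_norm _).trans ?_
    rw [norm_mul, h.norm, mul_one, hnb]
  have hsP : ∀ i, ∑ n ∈ P i, ‖a n‖ ^ 2 ≤ s := by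
    intro i
    exact Finset.sum_le_sum_of_subset_of_nonneg (Finset.filter_subset _ _)
      (fun _ _ _ => by positivity)
  have hYe : ∀ i b, ∫⁻ x, ENNReal.ofReal (Real.exp (Y i b x ^ 2 / (2 * Real.exp 1 * s))) ∂μ ≤ 2 := by
    intro i b
    refine exp_sq_bound (Y i b) (hYm i b) _ (hYb i b) s hs (fun l => ?_)
    have h1 := mgf_bound h (P i) (hPQ i) (fun n => if b then a n else -Complex.I * a n) l
    refine h1.trans (Real.exp_le_exp.mpr ?_)
    have h2 : ∑ n ∈ P i, ‖(if b then a n else -Complex.I * a n)‖ ^ 2 = ∑ n ∈ P i, ‖a n‖ ^ 2 :=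
      Finset.sum_congr rfl (fun n _ => by rw [hnb])
    rw [h2]
    have h3 := mul_le_mul_of_nonneg_left (hsP i) (sq_nonneg l)
    linarith
  -- the norm of the polynomial
  have hre : ∀ x, (∑ n ∈ A, a n * χ n x).re = ∑ i, Y i true x := by
    intro x
    rw [Complex.re_sum]
    have : ∀ i, Y i true x = ∑ n ∈ P i, (a n * χ n x).re := fun i => by simp [hY]
    simp_rw [this, hP]
    exact (Finset.sum_fiberwise A col (fun n => (a n * χ n x).re)).symm
  have him : ∀ x, (∑ n ∈ A, a n * χ n x).im = ∑ i, Y i false x := by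
    intro x
    rw [Complex.im_sum]
    have : ∀ i, Y i false x = ∑ n ∈ P i, (a n * χ n x).im := fun i => by
      rw [hY]
      apply Finset.sum_congr rfl
      intro n _
      simp [Complex.mul_re, Complex.mul_im]
      try ring
    simp_rw [this, hP]
    exact (Finset.sum_fiberwise A col (fun n => (a n * χ n x).im)).symm
  have hnorm : ∀ x, ‖∑ n ∈ A, a n * χ n x‖ ^ 2 ≤ k * ∑ i, (Y i true x ^ 2 + Y i false x ^ 2) := by
    intro x
    rw [← Complex.normSq_eq_norm_sq, Complex.normSq_apply, hre, him, Finset.sum_add_distrib, mul_add]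
    have h1 : ∀ b : Bool, (∑ i, Y i b x) * (∑ i, Y i b x) ≤ k * ∑ i, Y i b x ^ 2 := by
      intro b
      have := sq_sum_le_card_mul_sum_sq (s := (Finset.univ : Finset (Fin k))) (f := fun i => Y i b x)
      simp only [Finset.card_univ, Fintype.card_fin] at this
      rw [← pow_two]
      exact this
    exact add_le_add (h1 true) (h1 false)
  -- convexity
  have hconv : ∀ x, Real.exp (‖∑ n ∈ A, a n * χ n x‖ ^ 2 /
      (2 * k * Real.sqrt (2 * Real.exp 1 * s)) ^ 2) ≤
      ∑ j : Fin k × Bool, (1 / (2 * k : ℝ)) * Real.exp (Y j.1 j.2 x ^ 2 / (2 * Real.exp 1 * s)) := by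
    intro x
    have h1 : ‖∑ n ∈ A, a n * χ n x‖ ^ 2 / (2 * k * Real.sqrt (2 * Real.exp 1 * s)) ^ 2 ≤
        ∑ j : Fin k × Bool, (1 / (2 * k : ℝ)) * (Y j.1 j.2 x ^ 2 / (2 * Real.exp 1 * s)) := by
      have h2 : ∑ j : Fin k × Bool, (1 / (2 * k : ℝ)) * (Y j.1 j.2 x ^ 2 / (2 * Real.exp 1 * s)) =
          (1 / (2 * k : ℝ)) * ((∑ i, (Y i true x ^ 2 + Y i false x ^ 2)) / (2 * Real.exp 1 * s)) := by
        rw [← Finset.mul_sum, ← Finset.sum_div, Fintype.sum_prod_type]
        simp
      rw [h2, mul_pow, Real.sq_sqrt (by positivity)]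
      rw [div_le_iff₀ (by positivity)]
      have h3 := hnorm x
      have h4 : 0 ≤ ∑ i, (Y i true x ^ 2 + Y i false x ^ 2) :=
        Finset.sum_nonneg fun i _ => by positivity
      have h5 : (1 / (2 * k : ℝ)) * ((∑ i, (Y i true x ^ 2 + Y i false x ^ 2)) /
          (2 * Real.exp 1 * s)) * ((2 * k) ^ 2 * (2 * Real.exp 1 * s)) =
          2 * (k * ∑ i, (Y i true x ^ 2 + Y i false x ^ 2)) := by
        field_simp
      rw [h5]
      nlinarith
    refine (Real.exp_le_exp.mpr h1).trans ?_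
    have h6 := convexOn_exp.map_sum_le (t := (Finset.univ : Finset (Fin k × Bool)))
      (w := fun _ => (1 / (2 * k : ℝ))) (p := fun j => Y j.1 j.2 x ^ 2 / (2 * Real.exp 1 * s))
      (fun _ _ => by positivity) (by
        simp only [Finset.sum_const, Finset.card_univ, Fintype.card_prod, Fintype.card_fin,
          Fintype.card_bool, nsmul_eq_mul]
        push_cast
        field_simp) (fun _ _ => Set.mem_univ _)
    simpa [smul_eq_mul] using h6
  calc ∫⁻ x, ENNReal.ofReal (Real.exp (‖∑ n ∈ A, a n * χ n x‖ ^ 2 /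
        (2 * k * Real.sqrt (2 * Real.exp 1 * s)) ^ 2)) ∂μ
      ≤ ∫⁻ x, ∑ j : Fin k × Bool, ENNReal.ofReal (1 / (2 * k : ℝ)) *
          ENNReal.ofReal (Real.exp (Y j.1 j.2 x ^ 2 / (2 * Real.exp 1 * s))) ∂μ := by
        apply lintegral_mono
        intro x
        dsimp only
        refine (ENNReal.ofReal_le_ofReal (hconv x)).trans ?_
        rw [ENNReal.ofReal_sum_of_nonneg (fun j _ => by positivity)]
        apply Finset.sum_le_sum
        intro j _
        rw [ENNReal.ofReal_mul (by positivity)]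
    _ = ∑ j : Fin k × Bool, ENNReal.ofReal (1 / (2 * k : ℝ)) *
          ∫⁻ x, ENNReal.ofReal (Real.exp (Y j.1 j.2 x ^ 2 / (2 * Real.exp 1 * s))) ∂μ := by
        have hmeas : ∀ j : Fin k × Bool, Measurable fun x =>
            ENNReal.ofReal (Real.exp (Y j.1 j.2 x ^ 2 / (2 * Real.exp 1 * s))) := fun j =>
          ENNReal.measurable_ofReal.comp (Real.measurable_exp.comp
            (((hYm j.1 j.2).pow_const 2).div_const _))
        rw [lintegral_finset_sum _ (fun j _ => (hmeas j).const_mul _)]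
        exact Finset.sum_congr rfl (fun j _ => lintegral_const_mul _ (hmeas j))
    _ ≤ ∑ j : Fin k × Bool, ENNReal.ofReal (1 / (2 * k : ℝ)) * 2 := by
        apply Finset.sum_le_sum
        intro j _
        gcongr
        exact hYe j.1 j.2
    _ = 2 := by
        rw [Finset.sum_const, Finset.card_univ, Fintype.card_prod, Fintype.card_fin,
          Fintype.card_bool, nsmul_eq_mul]
        have h7 : (2 : ENNReal) = ENNReal.ofReal 2 := by simp
        have h8 : ((k * 2 : ℕ) : ENNReal) = ENNReal.ofReal (k * 2) := by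
          rw [← ENNReal.ofReal_natCast]; push_cast; rfl
        rw [h8, h7, ← ENNReal.ofReal_mul (by positivity), ← ENNReal.ofReal_mul (by positivity)]
        congr 1
        field_simp
    _ ≤ ENNReal.ofReal (Real.exp 1) := by
        have h7 : (2 : ENNReal) = ENNReal.ofReal 2 := by simp
        rw [h7]
        apply ENNReal.ofReal_le_ofReal
        have := Real.add_one_le_exp (1 : ℝ)
        linarith

end Pool.Agent.Helper102_sidon
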