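import Pool.Agent.Helper102_sidon.Sys

set_option autoImplicit false
set_option linter.unusedSectionVars false

open MeasureTheory

namespace Pool.Agent.Helper102_sidon

universe u v

variable {Γ : Type u} [AddCommGroup Γ] [DecidableEq Γ] {X : Type v} [MeasurableSpace X] {μ : Measure X}
  [IsProbabilityMeasure μ] {χ : Γ → X → ℂ}

/-- finite quasi-independence -/
def FQI (A : Finset Γ) : Prop :=
  ∀ ξ : Γ → ℤ, (∀ x, ξ x = -1 ∨ ξ x = 0 ∨ ξ x = 1) → ∑ x ∈ A, ξ x • x = 0 → ∀ x ∈ A, ξ x = 0

theorem mgf_bound (h : CharSys Γ μ χ) (A : Finset Γ) (hA : FQI A) (a : Γ → ℂ) (l : ℝ) :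
    ∫ x, Real.exp (l * ∑ n ∈ A, (a n * χ n x).re) ∂μ ≤
      Real.exp (l ^ 2 * (∑ n ∈ A, ‖a n‖ ^ 2) / 2) := by
  set p : Γ → ℂ := fun n => (Real.cosh (l * ‖a n‖) : ℝ) with hp
  set q : Γ → ℂ := fun n => ((Real.sinh (l * ‖a n‖) / 2 / ‖a n‖ : ℝ) : ℂ) * a n with hq
  set r : Γ → ℂ := fun n => (starRingEnd ℂ) (q n) with hr
  have hz := riesz h p q r A 0 (by
    intro ξ hξ hrel
    rw [zero_add] at hrel
    exact ⟨rfl, hA ξ hξ hrel⟩)
  rw [if_pos rfl] at hz
  -- the real factor
  set g : Γ → X → ℝ := fun n x => Real.cosh (l * ‖a n‖) + (a n * χ n x).re / ‖a n‖ *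
    Real.sinh (l * ‖a n‖) with hg
  have hfac : ∀ n x, fac χ p q r n x = ((g n x : ℝ) : ℂ) := by
    intro n x
    have h1 : q n * χ n x + r n * χ (-n) x = ((2 * (q n * χ n x).re : ℝ) : ℂ) := by
      rw [h.neg, hr, ← map_mul, Complex.add_conj]
    unfold fac
    rw [add_assoc, h1, hp, hg]
    simp only [hq]
    rw [mul_assoc, Complex.re_ofReal_mul]
    push_cast
    ring
  have hpt : ∀ x, Real.exp (l * ∑ n ∈ A, (a n * χ n x).re) ≤ ∏ n ∈ A, g n x := by
    intro x
    rw [Finset.mul_sum, Real.exp_sum]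
    apply Finset.prod_le_prod (fun _ _ => (Real.exp_pos _).le)
    intro n _
    by_cases han : a n = 0
    · simp [hg, han]
    · have hpos : 0 < ‖a n‖ := norm_pos_iff.mpr han
      have h1 : |(a n * χ n x).re / ‖a n‖| ≤ 1 := by
        rw [abs_div, abs_norm, div_le_one hpos]
        refine (Complex.abs_re_le_norm _).trans ?_
        rw [norm_mul, h.norm, mul_one]
      have h2 := Real.exp_mul_le_cosh_add_mul_sinh h1 (l * ‖a n‖)
      have h3 : (a n * χ n x).re / ‖a n‖ * (l * ‖a n‖) = l * (a n * χ n x).re := by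
        field_simp
      rw [h3] at h2
      exact h2
  have hint : ∀ x, ((∏ n ∈ A, g n x : ℝ) : ℂ) = χ 0 x * ∏ n ∈ A, fac χ p q r n x := by
    intro x
    rw [h.zero, one_mul]
    push_cast
    exact Finset.prod_congr rfl (fun n _ => (hfac n x).symm)
  have hI : ∫ x, ∏ n ∈ A, g n x ∂μ = ∏ n ∈ A, Real.cosh (l * ‖a n‖) := by
    have h1 : ((∫ x, ∏ n ∈ A, g n x ∂μ : ℝ) : ℂ) = ∏ n ∈ A, p n := by
      rw [← hz, ← integral_complex_ofReal]
      exact integral_congr_ae (Filter.Eventually.of_forall hint)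
    simp only [hp] at h1
    exact_mod_cast h1
  have hgi : Integrable (fun x => ∏ n ∈ A, g n x) μ := by
    have h1 := prod_integrable h p q r A 0
    have h2 : Integrable (fun x => ((∏ n ∈ A, g n x : ℝ) : ℂ)) μ := by
      refine h1.congr (Filter.Eventually.of_forall fun x => ?_)
      exact (hint x).symm
    have h3 := h2.re
    exact h3
  have hexpi : Integrable (fun x => Real.exp (l * ∑ n ∈ A, (a n * χ n x).re)) μ := by
    refine hgi.mono' ?_ (Filter.Eventually.of_forall fun x => ?_)
    · apply Measurable.aestronglyMeasurable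
      apply Real.measurable_exp.comp
      apply Measurable.const_mul
      apply Finset.measurable_sum
      intro n _
      exact Complex.measurable_re.comp ((h.meas n).const_mul _)
    · rw [Real.norm_eq_abs, abs_of_pos (Real.exp_pos _)]
      exact hpt x
  calc ∫ x, Real.exp (l * ∑ n ∈ A, (a n * χ n x).re) ∂μ ≤ ∫ x, ∏ n ∈ A, g n x ∂μ :=
        integral_mono hexpi hgi hpt
    _ = ∏ n ∈ A, Real.cosh (l * ‖a n‖) := hI
    _ ≤ ∏ n ∈ A, Real.exp ((l * ‖a n‖) ^ 2 / 2) :=
        Finset.prod_le_prod (fun _ _ => (Real.cosh_pos _).le) (fun _ _ => Real.cosh_le_exp_half_sq _)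
    _ = Real.exp (l ^ 2 * (∑ n ∈ A, ‖a n‖ ^ 2) / 2) := by
        rw [← Real.exp_sum]
        congr 1
        rw [Finset.mul_sum, Finset.sum_div]
        apply Finset.sum_congr rfl
        intro n _
        ring

/-- From moment generating function bounds to square-exponential integrability. -/
theorem exp_sq_bound (Y : X → ℝ) (hY : Measurable Y) (B : ℝ) (hB : ∀ x, |Y x| ≤ B) (s : ℝ) (hs : 0 < s)
    (hm : ∀ l : ℝ, ∫ x, Real.exp (l * Y x) ∂μ ≤ Real.exp (l ^ 2 * s / 2)) :
    ∫⁻ x, ENNReal.ofReal (Real.exp (Y x ^ 2 / (2 * Real.exp 1 * s))) ∂μ ≤ 2 := by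
  have hint : ∀ l : ℝ, Integrable (fun x => Real.exp (l * Y x)) μ := by
    intro l
    refine Integrable.of_bound ?_ (Real.exp (|l| * B)) (Filter.Eventually.of_forall fun x => ?_)
    · exact (Real.measurable_exp.comp (hY.const_mul l)).aestronglyMeasurable
    · rw [Real.norm_eq_abs, abs_of_pos (Real.exp_pos _)]
      apply Real.exp_le_exp.mpr
      calc l * Y x ≤ |l * Y x| := le_abs_self _
        _ = |l| * |Y x| := abs_mul _ _
        _ ≤ |l| * B := mul_le_mul_of_nonneg_left (hB x) (abs_nonneg _)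
  have hcosh : ∀ l : ℝ, ∫⁻ x, ENNReal.ofReal (Real.cosh (l * Y x)) ∂μ ≤
      ENNReal.ofReal (Real.exp (l ^ 2 * s / 2)) := by
    intro l
    have h1 : Integrable (fun x => Real.cosh (l * Y x)) μ := by
      have h2 : (fun x => Real.cosh (l * Y x)) =
          fun x => (Real.exp (l * Y x) + Real.exp (-l * Y x)) / 2 := by
        funext x
        rw [Real.cosh_eq, neg_mul]
      rw [h2]
      exact ((hint l).add (hint (-l))).div_const 2
    rw [← ofReal_integral_eq_lintegral_ofReal h1
      (Filter.Eventually.of_forall fun x => (Real.cosh_pos _).le)]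
    apply ENNReal.ofReal_le_ofReal
    have h3 : ∫ x, Real.cosh (l * Y x) ∂μ =
        (∫ x, Real.exp (l * Y x) ∂μ + ∫ x, Real.exp (-l * Y x) ∂μ) / 2 := by
      rw [← integral_add (hint l) (hint (-l)), ← integral_div]
      congr 1
      funext x
      rw [Real.cosh_eq, neg_mul]
    rw [h3]
    have h4 := hm l
    have h5 := hm (-l)
    rw [neg_sq] at h5
    linarith
  have he : (0 : ℝ) < Real.exp 1 := Real.exp_pos 1
  -- expansion of the exponential
  have hexp : ∀ x, ENNReal.ofReal (Real.exp (Y x ^ 2 / (2 * Real.exp 1 * s))) =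
      ∑' k : ℕ, ENNReal.ofReal ((Y x ^ 2 / (2 * Real.exp 1 * s)) ^ k / (k.factorial : ℝ)) := by
    intro x
    have h1 : HasSum (fun k : ℕ => (Y x ^ 2 / (2 * Real.exp 1 * s)) ^ k / (k.factorial : ℝ))
        (Real.exp (Y x ^ 2 / (2 * Real.exp 1 * s))) := by
      rw [Real.exp_eq_exp_ℝ]
      exact NormedSpace.expSeries_div_hasSum_exp _
    rw [← h1.tsum_eq]
    exact ENNReal.ofReal_tsum_of_nonneg (fun k => by positivity) h1.summable
  simp_rw [hexp]
  rw [lintegral_tsum (fun k => by
    apply Measurable.aemeasurable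
    apply ENNReal.measurable_ofReal.comp
    exact ((((hY.pow_const 2).div_const _).pow_const k).div_const _))]
  have hterm : ∀ k : ℕ, ∫⁻ x, ENNReal.ofReal ((Y x ^ 2 / (2 * Real.exp 1 * s)) ^ k /
      (k.factorial : ℝ)) ∂μ ≤ ENNReal.ofReal ((1 / 2 : ℝ) ^ k) := by
    intro k
    rcases Nat.eq_zero_or_pos k with hk | hk
    · subst hk
      simp
    · have hk' : (0 : ℝ) < k := by exact_mod_cast hk
      set l : ℝ := Real.sqrt (2 * k / s) with hl
      have hl2 : l ^ 2 = 2 * k / s := Real.sq_sqrt (by positivity)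
      have hf1 : (0 : ℝ) < ((2 * k).factorial : ℝ) := by exact_mod_cast Nat.factorial_pos _
      have hf2 : (0 : ℝ) < (k.factorial : ℝ) := by exact_mod_cast Nat.factorial_pos _
      set c : ℝ := (2 * k).factorial / k.factorial * (1 / (4 * Real.exp 1 * k)) ^ k with hc
      have hc0 : 0 ≤ c := by positivity
      have hpt : ∀ x, (Y x ^ 2 / (2 * Real.exp 1 * s)) ^ k / (k.factorial : ℝ) ≤
          c * Real.cosh (l * Y x) := by
        intro x
        have h1 := Real.hasSum_cosh (l * Y x)
        have h2 : (l * Y x) ^ (2 * k) / ((2 * k).factorial : ℝ) ≤ Real.cosh (l * Y x) := by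
          refine le_hasSum h1 k (fun j _ => ?_)
          rw [pow_mul]
          positivity
        have h3 : (Y x ^ 2 / (2 * Real.exp 1 * s)) ^ k / (k.factorial : ℝ) =
            c * ((l * Y x) ^ (2 * k) / ((2 * k).factorial : ℝ)) := by
          have h4 : (l * Y x) ^ (2 * k) = (2 * k / s) ^ k * (Y x ^ 2) ^ k := by
            rw [pow_mul, mul_pow, hl2, mul_pow]
          rw [h4, hc]
          have h5 : (Y x ^ 2 / (2 * Real.exp 1 * s)) ^ k =
              (1 / (4 * Real.exp 1 * k)) ^ k * ((2 * k / s) ^ k * (Y x ^ 2) ^ k) := by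
            rw [← mul_pow, ← mul_pow]
            congr 1
            field_simp
            ring
          rw [h5]
          field_simp
        rw [h3]
        exact mul_le_mul_of_nonneg_left h2 hc0
      calc ∫⁻ x, ENNReal.ofReal ((Y x ^ 2 / (2 * Real.exp 1 * s)) ^ k / (k.factorial : ℝ)) ∂μ
          ≤ ∫⁻ x, ENNReal.ofReal c * ENNReal.ofReal (Real.cosh (l * Y x)) ∂μ := by
            apply lintegral_mono
            intro x
            dsimp only
            rw [← ENNReal.ofReal_mul hc0]
            exact ENNReal.ofReal_le_ofReal (hpt x)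
        _ = ENNReal.ofReal c * ∫⁻ x, ENNReal.ofReal (Real.cosh (l * Y x)) ∂μ :=
            lintegral_const_mul _ (ENNReal.measurable_ofReal.comp
              (Real.continuous_cosh.measurable.comp (hY.const_mul l)))
        _ ≤ ENNReal.ofReal c * ENNReal.ofReal (Real.exp (l ^ 2 * s / 2)) := by
            gcongr
            exact hcosh l
        _ = ENNReal.ofReal (c * Real.exp (l ^ 2 * s / 2)) := (ENNReal.ofReal_mul hc0).symm
        _ ≤ ENNReal.ofReal ((1 / 2 : ℝ) ^ k) := by
            apply ENNReal.ofReal_le_ofReal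
            have h6 : Real.exp (l ^ 2 * s / 2) = Real.exp 1 ^ k := by
              rw [hl2, ← Real.exp_nat_mul]
              congr 1
              field_simp
            have h7 : ((2 * k).factorial : ℝ) / k.factorial ≤ (2 * k) ^ k := by
              rw [div_le_iff₀ hf2]
              have h8 : (2 * k).factorial ≤ (2 * k) ^ k * k.factorial := by
                have h9 := Nat.factorial_mul_ascFactorial k k
                have h10 := Nat.ascFactorial_le_pow_add k k
                rw [← two_mul] at h9 h10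
                calc (2 * k).factorial = k.factorial * (k + 1).ascFactorial k := h9.symm
                  _ ≤ k.factorial * (2 * k) ^ k := Nat.mul_le_mul_left _ h10
                  _ = _ := mul_comm _ _
              exact_mod_cast h8
            rw [h6, hc]
            calc (2 * k).factorial / k.factorial * (1 / (4 * Real.exp 1 * k)) ^ k * Real.exp 1 ^ k
                ≤ (2 * k) ^ k * (1 / (4 * Real.exp 1 * k)) ^ k * Real.exp 1 ^ k := by
                  gcongr
              _ = (1 / 2 : ℝ) ^ k := by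
                  rw [← mul_pow, ← mul_pow]
                  congr 1
                  field_simp
                  norm_num
  calc ∑' k : ℕ, ∫⁻ x, ENNReal.ofReal ((Y x ^ 2 / (2 * Real.exp 1 * s)) ^ k / (k.factorial : ℝ)) ∂μ
      ≤ ∑' k : ℕ, ENNReal.ofReal ((1 / 2 : ℝ) ^ k) := ENNReal.tsum_le_tsum hterm
    _ = ENNReal.ofReal (∑' k : ℕ, (1 / 2 : ℝ) ^ k) :=
        (ENNReal.ofReal_tsum_of_nonneg (fun k => by positivity) summable_geometric_two).symm
    _ = 2 := by rw [tsum_geometric_two]; simp

end Pool.Agent.Helper102_sidon
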