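import Mathlib

set_option autoImplicit false

open MeasureTheory

namespace Pool.Agent.Helper102_sidon

universe u v

/-- A system of characters on a probability space. -/
structure CharSys (Γ : Type u) [AddCommGroup Γ] {X : Type v} [MeasurableSpace X] (μ : Measure X)
    (χ : Γ → X → ℂ) : Prop where
  zero : ∀ x, χ 0 x = 1
  add : ∀ m n x, χ (m + n) x = χ m x * χ n x
  norm : ∀ n x, ‖χ n x‖ = 1
  meas : ∀ n, Measurable (χ n)
  orth : ∀ n, n ≠ 0 → ∫ x, χ n x ∂μ = 0

variable {Γ : Type u} [AddCommGroup Γ] [DecidableEq Γ] {X : Type v} [MeasurableSpace X] {μ : Measure X}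
  [IsProbabilityMeasure μ] {χ : Γ → X → ℂ}

theorem CharSys.neg (h : CharSys Γ μ χ) (n : Γ) (x : X) : χ (-n) x = (starRingEnd ℂ) (χ n x) := by
  have h1 : χ (-n) x * χ n x = 1 := by rw [← h.add, neg_add_cancel, h.zero]
  have h2 : (starRingEnd ℂ) (χ n x) * χ n x = 1 := by
    rw [mul_comm, Complex.mul_conj, Complex.normSq_eq_norm_sq, h.norm]; simp
  have h3 : χ n x ≠ 0 := by
    intro h0
    have := h.norm n x
    rw [h0, norm_zero] at this
    norm_num at this
  exact mul_right_cancel₀ h3 (h1.trans h2.symm)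

theorem CharSys.integral (h : CharSys Γ μ χ) (n : Γ) : ∫ x, χ n x ∂μ = if n = 0 then 1 else 0 := by
  split_ifs with h0
  · subst h0
    simp [h.zero]
  · exact h.orth n h0

/-- bounded measurable functions are integrable -/
theorem integrable_of_bound (f : X → ℂ) (hf : Measurable f) (B : ℝ) (hB : ∀ x, ‖f x‖ ≤ B) :
    Integrable f μ :=
  Integrable.of_bound hf.aestronglyMeasurable B (Filter.Eventually.of_forall hB)

/-- The three-term Riesz product factor. -/
noncomputable def fac (χ : Γ → X → ℂ) (p q r : Γ → ℂ) (n : Γ) (x : X) : ℂ :=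
  p n + q n * χ n x + r n * χ (-n) x

theorem fac_meas (h : CharSys Γ μ χ) (p q r : Γ → ℂ) (n : Γ) : Measurable (fac χ p q r n) := by
  unfold fac
  exact (measurable_const.add (measurable_const.mul (h.meas n))).add
    (measurable_const.mul (h.meas (-n)))

theorem fac_norm (h : CharSys Γ μ χ) (p q r : Γ → ℂ) (n : Γ) (x : X) :
    ‖fac χ p q r n x‖ ≤ ‖p n‖ + ‖q n‖ + ‖r n‖ := by
  unfold fac
  refine (norm_add₃_le).trans ?_
  rw [norm_mul, norm_mul, h.norm, h.norm, mul_one, mul_one]

theorem prod_integrable (h : CharSys Γ μ χ) (p q r : Γ → ℂ) (A : Finset Γ) (m : Γ) :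
    Integrable (fun x => χ m x * ∏ n ∈ A, fac χ p q r n x) μ := by
  refine integrable_of_bound _ ?_ (1 * ∏ n ∈ A, (‖p n‖ + ‖q n‖ + ‖r n‖)) ?_
  · exact (h.meas m).mul (Finset.measurable_prod A (fun n _ => fac_meas h p q r n))
  · intro x
    rw [norm_mul, h.norm, norm_prod]
    exact mul_le_mul_of_nonneg_left (Finset.prod_le_prod (fun _ _ => norm_nonneg _)
      (fun n _ => fac_norm h p q r n x)) zero_le_one

/-- The integral of a Riesz product. -/
theorem riesz (h : CharSys Γ μ χ) (p q r : Γ → ℂ) (A : Finset Γ) : ∀ m : Γ,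
    (∀ ξ : Γ → ℤ, (∀ x, ξ x = -1 ∨ ξ x = 0 ∨ ξ x = 1) → m + ∑ x ∈ A, ξ x • x = 0 →
      m = 0 ∧ ∀ x ∈ A, ξ x = 0) →
    ∫ x, χ m x * ∏ n ∈ A, fac χ p q r n x ∂μ = if m = 0 then ∏ n ∈ A, p n else 0 := by
  induction A using Finset.induction_on with
  | empty =>
    intro m _
    simp only [Finset.prod_empty, mul_one]
    exact h.integral m
  | insert n A hn ih =>
    intro m hm
    have e : ∀ x, χ m x * ∏ k ∈ insert n A, fac χ p q r k x =
        p n * (χ m x * ∏ k ∈ A, fac χ p q r k x) + q n * (χ (m + n) x * ∏ k ∈ A, fac χ p q r k x) +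
          r n * (χ (m + -n) x * ∏ k ∈ A, fac χ p q r k x) := by
      intro x
      rw [Finset.prod_insert hn, h.add, h.add]
      unfold fac
      ring
    have key : ∀ (s : ℤ) (ξ : Γ → ℤ), m + s • n + ∑ x ∈ A, ξ x • x =
        m + ∑ x ∈ insert n A, (Function.update ξ n s) x • x := by
      intro s ξ
      rw [Finset.sum_insert hn, Function.update_self, add_assoc]
      congr 2
      apply Finset.sum_congr rfl
      intro x hx
      rw [Function.update_of_ne]
      rintro rfl
      exact hn hx
    have hval : ∀ (s : ℤ) (ξ : Γ → ℤ), (s = -1 ∨ s = 0 ∨ s = 1) →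
        (∀ x, ξ x = -1 ∨ ξ x = 0 ∨ ξ x = 1) →
        ∀ x, (Function.update ξ n s) x = -1 ∨ (Function.update ξ n s) x = 0 ∨
          (Function.update ξ n s) x = 1 := by
      intro s ξ hs hξ x
      by_cases hx : x = n
      · subst hx; rw [Function.update_self]; exact hs
      · rw [Function.update_of_ne hx]; exact hξ x
    have h0 := ih m (by
      intro ξ hξ hrel
      have h1 := key 0 ξ
      rw [zero_smul, add_zero, hrel] at h1
      obtain ⟨h2, h3⟩ := hm _ (hval 0 ξ (by simp) hξ) h1.symm
      refine ⟨h2, fun x hx => ?_⟩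
      have h4 := h3 x (Finset.mem_insert_of_mem hx)
      rw [Function.update_of_ne] at h4
      · exact h4
      · rintro rfl; exact hn hx)
    have hno : ∀ s : ℤ, (s = -1 ∨ s = 1) → ∀ ξ : Γ → ℤ, (∀ x, ξ x = -1 ∨ ξ x = 0 ∨ ξ x = 1) →
        m + s • n + ∑ x ∈ A, ξ x • x ≠ 0 := by
      intro s hs ξ hξ hrel
      have h1 := key s ξ
      rw [hrel] at h1
      obtain ⟨_, h3⟩ := hm _ (hval s ξ (by omega) hξ) h1.symm
      have h4 := h3 n (Finset.mem_insert_self _ _)
      rw [Function.update_self] at h4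
      omega
    have hs : ∀ s : ℤ, (s = -1 ∨ s = 1) →
        ∫ x, χ (m + s • n) x * ∏ k ∈ A, fac χ p q r k x ∂μ = 0 := by
      intro s hs
      rw [ih (m + s • n) (fun ξ hξ hrel => absurd hrel (hno s hs ξ hξ))]
      rw [if_neg]
      have h5 := hno s hs (fun _ => 0) (by simp)
      simpa using h5
    have h1 := hs 1 (by simp)
    have h2 := hs (-1) (by simp)
    rw [one_smul] at h1
    rw [neg_smul, one_smul] at h2
    simp_rw [e]
    rw [integral_add, integral_add, integral_const_mul, integral_const_mul, integral_const_mul,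
      h0, h1, h2]
    · rw [Finset.prod_insert hn]
      split_ifs <;> ring
    · exact (prod_integrable h p q r A m).const_mul _
    · exact (prod_integrable h p q r A (m + n)).const_mul _
    · exact ((prod_integrable h p q r A m).const_mul _).add
        ((prod_integrable h p q r A (m + n)).const_mul _)
    · exact (prod_integrable h p q r A (m + -n)).const_mul _

end Pool.Agent.Helper102_sidon
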